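import Pool.Agent.H82.KRec.Conv

/-!
# Sets of k-recurrence that fail for k commuting transformations, for every k ≥ 2

We answer Q2 in the negative for every `k ≥ 2`, by an explicit set `digitSet k`: the sums
`∑_p s_p · (72 k)^(p²)` whose digits `s_p` are `0` or `1`, except that at the positions divisible
by `k - 1` the digits `3` and `4` are allowed as well, and for which the number of blocks
`(s_{(k-1)i}, …, s_{(k-1)i+k-2})` equal to `(4, 1, …, 1)` is not a multiple of three.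
-/

open MeasureTheory

universe u

namespace Pool.Agent.Results.MP_74ad1e_an.AllOrders

/-- The integer powers of an invertible bimeasurable map, as bijections. -/
def zpw {X : Type u} [MeasurableSpace X] (T : X ≃ᵐ X) (n : ℤ) : Equiv.Perm X :=
  (T.toEquiv : Equiv.Perm X) ^ n

/-- Sets of `k`-recurrence. -/
def IsSetOfRecurrence (k : ℕ) (R : Set ℤ) : Prop :=
  ∀ (X : Type u) [MeasurableSpace X] (μ : Measure X) [IsProbabilityMeasure μ] (T : X ≃ᵐ X),
    MeasurePreserving T μ μ → ∀ A : Set X, MeasurableSet A → 0 < μ A →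
      ∃ n ∈ R, n ≠ 0 ∧ 0 < μ (⋂ j ∈ Finset.range (k + 1), (zpw T ((j : ℤ) * n)) '' A)

open Classical in
/-- The explicit set (for `k ≥ 2`). -/
def digitSet (k : ℕ) : Set ℤ :=
  {n | ∃ (K : ℕ) (s : ℕ → ℕ),
    (∀ p, s p = 0 ∨ s p = 1 ∨ ((k - 1) ∣ p ∧ (s p = 3 ∨ s p = 4))) ∧
    ¬ 3 ∣ ((Finset.range K).filter (fun i => s ((k - 1) * i) = 4 ∧
      ∀ l, 0 < l → l < k - 1 → s ((k - 1) * i + l) = 1)).card ∧
    n = ((∑ p ∈ Finset.range ((k - 1) * K), s p * (72 * k) ^ (p ^ 2) : ℕ) : ℤ)}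

open Pool.Agent.H82.KRec

lemma mem_digitSet (m : ℕ) (n : ℤ) : n ∈ digitSet (m + 2) ↔ ∃ N : ℕ, InN m N ∧ n = N := by
  classical
  constructor
  · rintro ⟨K, s, h1, h2, h3⟩
    refine ⟨_, ⟨K, s, h1, ?_, rfl⟩, h3⟩
    convert h2 using 3
    apply Finset.filter_congr
    intro i _
    exact Iff.rfl
  · rintro ⟨N, ⟨K, s, h1, h2, h3⟩, h4⟩
    refine ⟨K, s, h1, ?_, by rw [h4, h3]; rfl⟩
    convert h2 using 3
    apply Finset.filter_congr
    intro i _
    exact Iff.rfl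

lemma zpw_image {X : Type u} [MeasurableSpace X] (T : X ≃ᵐ X) (n : ℤ) (A : Set X) (x : X) :
    x ∈ (zpw T n) '' A ↔ zpw T (-n) x ∈ A := by
  unfold zpw
  rw [Equiv.image_eq_preimage_symm, Set.mem_preimage]
  have h1 : ((T.toEquiv : Equiv.Perm X) ^ n).symm = (T.toEquiv : Equiv.Perm X) ^ (-n) := by
    rw [zpow_neg]; rfl
  rw [h1]

lemma zpw_mp {X : Type u} [MeasurableSpace X] {μ : Measure X} (T : X ≃ᵐ X)
    (hT : MeasurePreserving T μ μ) (n : ℤ) : MeasurePreserving (zpw T n) μ μ := by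
  have hU : MeasurePreserving T.symm μ μ := hT.symm T
  have h1 : ∀ a : ℕ, (((T.toEquiv : Equiv.Perm X) ^ a : Equiv.Perm X) : X → X) = (T : X → X)^[a] := by
    intro a
    rw [← Equiv.Perm.iterate_eq_pow]
    rfl
  have h2 : ∀ a : ℕ, ((((T.toEquiv : Equiv.Perm X)⁻¹) ^ a : Equiv.Perm X) : X → X)
      = (T.symm : X → X)^[a] := by
    intro a
    rw [← Equiv.Perm.iterate_eq_pow]
    rfl
  obtain ⟨a, rfl | rfl⟩ := n.eq_nat_or_neg
  · unfold zpw
    rw [zpow_natCast, h1]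
    exact hT.iterate a
  · unfold zpw
    rw [zpow_neg, zpow_natCast, ← inv_pow, h2]
    exact hU.iterate a

/-- the action of the integers given by the inverse of `T` -/
def act {X : Type u} [MeasurableSpace X] {μ : Measure X} (T : X ≃ᵐ X)
    (hT : MeasurePreserving T μ μ) : Act μ where
  P n := zpw T (-n)
  zero x := by simp [zpw]
  add j k x := by
    show zpw T (-(j + k)) x = zpw T (-j) (zpw T (-k) x)
    unfold zpw
    rw [neg_add, zpow_add, Equiv.Perm.mul_apply]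
  mp n := zpw_mp T hT (-n)

theorem kRecurrence (m : ℕ) : IsSetOfRecurrence.{u} (m + 2) (digitSet (m + 2)) := by
  intro X _ μ _ T hT A hA hpos
  obtain ⟨N, hN, hpos'⟩ := positivity_main (act T hT) m (VV m) hA hpos
  obtain ⟨n, rfl, hn⟩ := inN_of_inS hN
  refine ⟨(n : ℤ), (mem_digitSet m _).2 ⟨n, hn, rfl⟩, ?_, ?_⟩
  · have := inN_pos hn
    exact_mod_cast this.ne'
  · have h1 : {x | ∀ j ∈ Finset.range (m + 3), (act T hT).P (j * (n : ℤ)) x ∈ A} =
        ⋂ j ∈ Finset.range (m + 2 + 1), (zpw T ((j : ℤ) * (n : ℤ))) '' A := by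
      ext x
      simp only [Set.mem_iInter, Set.mem_ofPred_eq, zpw_image]
      rfl
    rw [← h1]
    unfold nu Measure.real at hpos'
    exact (ENNReal.toReal_pos_iff.1 hpos').1

open Classical in
lemma emp_ge (m : ℕ) (F : Fin (m + 3) → (Fin (m + 2) → GR m) → ZMod 9) (K : ℕ)
    (a : Fin (m + 3) → ZMod 9) (hd : (1 / (2 * 9 ^ (m + 3)) : ℝ) *
      ((Lam m ((m + 1) * K) : ℝ) ^ (m + 2)) ≤
      (((Finset.univ.filter fun v => AA m F K a v).card : ℕ) : ℝ)) :
    ENNReal.ofReal (1 / (2 * 9 ^ (m + 3))) ≤ emp (code (AA m F K a)) (cyl 0) := by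
  classical
  rw [emp_apply _ (cyl_clopen 0).1.measurableSet]
  have h1 : (Finset.univ.filter fun x => code (AA m F K a) x ∈ cyl 0)
      = Finset.univ.filter fun x => AA m F K a x := by
    ext x
    simp only [Finset.mem_filter, Finset.mem_univ, true_and]
    have h2 := code_iff (AA m F K a) x 0
    show code (AA m F K a) x 0 = true ↔ AA m F K a x
    rw [h2, red_zero, add_zero]
  rw [h1]
  set M : ℕ := (Finset.univ.filter fun x => AA m F K a x).card with hM
  have hM' : (1 / (2 * 9 ^ (m + 3)) : ℝ) * ((Lam m ((m + 1) * K) : ℝ) ^ (m + 2)) ≤ (M : ℝ) := by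
    refine hd.trans (le_of_eq ?_)
    rw [hM]
  have hcard : Fintype.card (Fin (m + 2) → ZMod (Lam m ((m + 1) * K)))
      = Lam m ((m + 1) * K) ^ (m + 2) := by
    rw [Fintype.card_fun, ZMod.card, Fintype.card_fin]
  rw [hcard]
  have hL : 0 < Lam m ((m + 1) * K) ^ (m + 2) := pow_pos (Lam_pos m _) _
  have hc : (0:ℝ) < ((Lam m ((m + 1) * K) ^ (m + 2) : ℕ) : ℝ) := by exact_mod_cast hL
  have h3 : (((Lam m ((m + 1) * K) ^ (m + 2) : ℕ) : ENNReal))⁻¹ * (M : ENNReal)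
      = ENNReal.ofReal ((M : ℝ) / ((Lam m ((m + 1) * K) ^ (m + 2) : ℕ) : ℝ)) := by
    rw [ENNReal.ofReal_div_of_pos hc, ENNReal.ofReal_natCast, ENNReal.ofReal_natCast, mul_comm,
      div_eq_mul_inv]
  rw [h3]
  apply ENNReal.ofReal_le_ofReal
  rw [le_div_iff₀ hc]
  push_cast
  exact hM'

/-- **Q2 has a negative answer for every `k ≥ 2`.** -/
theorem result (k : ℕ) (hk : 2 ≤ k) :
    IsSetOfRecurrence.{u} k (digitSet k) ∧
    ∃ (X : Type) (_ : MeasurableSpace X) (_ : StandardBorelSpace X) (μ : Measure X)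
      (_ : IsProbabilityMeasure μ) (T : Fin k → (X ≃ᵐ X)) (A : Set X),
      (∀ i, MeasurePreserving (T i) μ μ) ∧ (∀ i j x, T i (T j x) = T j (T i x)) ∧
      MeasurableSet A ∧ 0 < μ A ∧
      ∀ n ∈ digitSet k, n ≠ 0 → μ (A ∩ ⋂ i, (zpw (T i) n) '' A) = 0 := by
  obtain ⟨m, rfl⟩ : ∃ m, k = m + 2 := ⟨k - 2, by omega⟩
  refine ⟨kRecurrence m, ?_⟩
  obtain ⟨F, hF⟩ := corner_id m
  obtain ⟨μ, hμ, h1, h2, h3⟩ := limit_system (k := m + 2) (InN m)
    (ENNReal.ofReal (1 / (2 * 9 ^ (m + 3))))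
    (ENNReal.ofReal_pos.2 (by positivity)) (by
      intro K
      obtain ⟨a, hd⟩ := exists_dense m F K
      exact ⟨Lam m ((m + 1) * K), inferInstance, AA m F K a, emp_ge m F K a hd,
        fun n hn hK x => no_corner m F hF K a n hn hK x⟩)
  refine ⟨Om (m + 2), inferInstance, inferInstance, μ, hμ, fun i => shf (Pi.single i 1), cyl 0,
    fun i => h1 _, fun i j x => shf_comm _ _ x, (cyl_clopen 0).1.measurableSet, h2, ?_⟩
  intro n hn _
  obtain ⟨N, hN, rfl⟩ := (mem_digitSet m n).1 hn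
  have e1 : ∀ i : Fin (m + 2), (zpw (shf (Pi.single i 1)) (N : ℤ)) '' cyl 0
      = cyl (N • (Pi.single i 1 : Fin (m + 2) → ℤ)) := by
    intro i
    unfold zpw
    rw [zpow_natCast]
    exact shf_image (Pi.single i 1) N
  simp only [e1]
  exact h3 N hN

end Pool.Agent.Results.MP_74ad1e_an.AllOrders
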